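import Pool.Agent.H211.AD.Stm3

/-!
# AD211 RLATE: no attracting cycles near the non-attracted set, uniform attraction (helper539)
-/

set_option autoImplicit false

open Metric Set MeasureTheory Filter Topology Polynomial
open scoped OnePoint

namespace Pool.Agent.H539.AD211

open Pool.Agent.H211.AD Pool.Agent.H792R2.CE Pool.Agent.Helper114.Herman

/-- attracting periodic points -/
structure AP (d : ℕ) (P Q : ℂ[X]) (n : ℕ) (z : ℂ) : Prop where
  pos : 0 < n
  fin : ∀ i : ℕ, (sph d P Q)^[i] (z : OnePoint ℂ) ≠ ∞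
  per : (sph d P Q)^[n] (z : OnePoint ℂ) = (z : OnePoint ℂ)
  mul : ‖deriv ((rf P Q)^[n]) z‖ < 1

section AP

variable {d : ℕ} {P Q : ℂ[X]} {n : ℕ} {z : ℂ}

theorem AP.coe (h : AP d P Q n z) (i : ℕ) :
    (sph d P Q)^[i] (z : OnePoint ℂ) = (((rf P Q)^[i] z : ℂ) : OnePoint ℂ) :=
  (C2x.orbit h.fin i).1

theorem AP.q (h : AP d P Q n z) (i : ℕ) : Q.eval ((rf P Q)^[i] z) ≠ 0 := (C2x.orbit h.fin i).2

theorem AP.fix (h : AP d P Q n z) : (rf P Q)^[n] z = z := by
  have h1 := h.coe n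
  rw [h.per, OnePoint.coe_eq_coe] at h1
  exact h1.symm

theorem AP.next (h : AP d P Q n z) : AP d P Q n (rf P Q z) := by
  obtain ⟨m, rfl⟩ : ∃ m, n = m + 1 := ⟨n - 1, by have := h.pos; omega⟩
  have e1 : (sph d P Q) (z : OnePoint ℂ) = ((rf P Q z : ℂ) : OnePoint ℂ) := h.coe 1
  refine ⟨h.pos, ?_, ?_, ?_⟩
  · intro i
    rw [← e1, ← Function.iterate_succ_apply]
    exact h.fin _
  · rw [← e1, ← Function.iterate_succ_apply, Function.iterate_succ_apply', h.per]
  · have hq : ∀ j, Q.eval ((rf P Q)^[j] (rf P Q z)) ≠ 0 := fun j => by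
      rw [← Function.iterate_succ_apply]
      exact h.q _
    have h1 := rf_iter_deriv_add (z := rf P Q z) 1 m fun j _ => hq j
    have h2 := rf_iter_deriv_add (z := z) m 1 fun j _ => h.q j
    have h3 : (rf P Q)^[m] (rf P Q z) = z := by
      rw [← Function.iterate_succ_apply]
      exact h.fix
    have h4 : deriv ((rf P Q)^[m + 1]) (rf P Q z) = deriv ((rf P Q)^[m + 1]) z := by
      rw [Nat.add_comm m 1, h1, h3, Nat.add_comm 1 m, h2, Function.iterate_one, mul_comm]
    rw [h4]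
    exact h.mul

theorem AP.iter (h : AP d P Q n z) (i : ℕ) : AP d P Q n ((rf P Q)^[i] z) := by
  induction i with
  | zero => exact h
  | succ i ih =>
    rw [Function.iterate_succ_apply']
    exact ih.next

theorem AP.att (h : AP d P Q n z) : Att d P Q (z : OnePoint ℂ) := by
  refine ⟨n, h.pos, z, h.fin, h.per, h.mul, ?_⟩
  have h1 : (fun k : ℕ => (sph d P Q)^[n * k] (z : OnePoint ℂ)) = fun _ => (z : OnePoint ℂ) := by
    funext k
    rw [Function.iterate_mul]
    exact Function.iterate_fixed h.per k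
  rw [h1]
  exact tendsto_const_nhds

theorem AP.fixm (h : AP d P Q n z) (m : ℕ) : (rf P Q)^[n * m] z = z := by
  rw [Function.iterate_mul]
  exact Function.iterate_fixed h.fix m

theorem AP.deriv_mul (h : AP d P Q n z) (k : ℕ) :
    deriv ((rf P Q)^[n * k]) z = deriv ((rf P Q)^[n]) z ^ k := by
  induction k with
  | zero => simp
  | succ k ih =>
    rw [Nat.mul_succ, rf_iter_deriv_add (z := z) (n * k) n fun j _ => h.q j, h.fix, ih, pow_succ]

/-- a neighbourhood of the point stays near the cycle -/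
theorem AP.trap (hcont : Continuous (sph d P Q)) (h : AP d P Q n z) {O : Set (OnePoint ℂ)}
    (hO : IsOpen O) (hz : ∀ i, (((rf P Q)^[i] z : ℂ) : OnePoint ℂ) ∈ O) :
    ∃ ρ > (0 : ℝ), ∀ w ∈ ball z ρ, ∀ m, (sph d P Q)^[m] (w : OnePoint ℂ) ∈ O := by
  have hd : HasDerivAt ((rf P Q)^[n]) (deriv ((rf P Q)^[n]) z) z :=
    (C2x.iter_diff n fun i _ => h.q i).hasDerivAt
  obtain ⟨lam, hlam1, hlam2⟩ := exists_between h.mul
  have hlam0 : 0 ≤ lam := (norm_nonneg _).trans hlam1.le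
  have ev1 : ∀ᶠ w in 𝓝 z, ‖(rf P Q)^[n] w - z‖ ≤ lam * ‖w - z‖ := by
    have h1 := (hasDerivAt_iff_isLittleO.1 hd).bound
      (show 0 < lam - ‖deriv ((rf P Q)^[n]) z‖ by linarith)
    filter_upwards [h1] with w hw
    rw [h.fix] at hw
    have h2 : ‖(rf P Q)^[n] w - z‖ ≤ ‖(rf P Q)^[n] w - z - (w - z) • deriv ((rf P Q)^[n]) z‖ +
        ‖(w - z) • deriv ((rf P Q)^[n]) z‖ := by
      refine le_trans (le_of_eq ?_) (norm_add_le _ _)
      rw [sub_add_cancel]
    rw [norm_smul] at h2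
    calc ‖(rf P Q)^[n] w - z‖ ≤ (lam - ‖deriv ((rf P Q)^[n]) z‖) * ‖w - z‖ +
          ‖w - z‖ * ‖deriv ((rf P Q)^[n]) z‖ := h2.trans (add_le_add hw le_rfl)
      _ = lam * ‖w - z‖ := by ring
  have ev2 : ∀ᶠ w in 𝓝 z, ∀ i ∈ Finset.range n, Q.eval ((rf P Q)^[i] w) ≠ 0 := by
    refine (Filter.eventually_all_finset (Finset.range n)).2 fun i _ => ?_
    have h2 : ContinuousAt (fun w => Q.eval ((rf P Q)^[i] w)) z :=
      ContinuousAt.comp (g := fun y => Q.eval y) Q.continuous.continuousAt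
        (C2x.iter_diff i fun i _ => h.q i).continuousAt
    exact h2.eventually_ne (h.q i)
  have ev3 : ∀ᶠ w : ℂ in 𝓝 z, ∀ i ∈ Finset.range n, (sph d P Q)^[i] (w : OnePoint ℂ) ∈ O := by
    refine (Filter.eventually_all_finset (Finset.range n)).2 fun i _ => ?_
    have h1 : Continuous fun w : ℂ => (sph d P Q)^[i] (w : OnePoint ℂ) :=
      (hcont.iterate i).comp OnePoint.continuous_coe
    apply h1.continuousAt.eventually_mem
    apply hO.mem_nhds
    rw [h.coe i]
    exact hz i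
  obtain ⟨ρ, hρ, hball⟩ := Metric.mem_nhds_iff.1 (ev1.and (ev2.and ev3))
  have hstep : ∀ w ∈ ball z ρ, (rf P Q)^[n] w ∈ ball z ρ := by
    intro w hw
    have h1 := (hball hw).1
    rw [mem_ball, dist_eq_norm] at hw ⊢
    nlinarith [norm_nonneg (w - z)]
  have hk : ∀ w ∈ ball z ρ, ∀ k : ℕ, ((rf P Q)^[n])^[k] w ∈ ball z ρ ∧
      (sph d P Q)^[n * k] (w : OnePoint ℂ) = ((((rf P Q)^[n])^[k] w : ℂ) : OnePoint ℂ) := by
    intro w hw k
    induction k with
    | zero => exact ⟨hw, rfl⟩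
    | succ k ih =>
      obtain ⟨i1, i3⟩ := ih
      rw [Function.iterate_succ_apply']
      refine ⟨hstep _ i1, ?_⟩
      rw [Nat.mul_succ, Nat.add_comm, Function.iterate_add_apply, i3]
      exact C2x.iter_coe n fun i hi => (hball i1).2.1 i (Finset.mem_range.2 hi)
  refine ⟨ρ, hρ, fun w hw m => ?_⟩
  have h1 : (sph d P Q)^[m] (w : OnePoint ℂ) =
      (sph d P Q)^[m % n] ((sph d P Q)^[n * (m / n)] (w : OnePoint ℂ)) := by
    rw [← Function.iterate_add_apply, Nat.mod_add_div]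
  rw [h1, (hk w hw (m / n)).2]
  exact (hball (hk w hw (m / n)).1).2.2 _ (Finset.mem_range.2 (Nat.mod_lt _ h.pos))

/-- uniform attraction near an attracted point -/
theorem late_pt (hcont : Continuous (sph d P Q)) {O : Set (OnePoint ℂ)} (hO : IsOpen O)
    (hO' : ∀ n z, AP d P Q n z → (z : OnePoint ℂ) ∈ O) {x : OnePoint ℂ} (hx : Att d P Q x) :
    ∃ V ∈ 𝓝 x, ∃ N : ℕ, ∀ x' ∈ V, ∀ m ≥ N, (sph d P Q)^[m] x' ∈ O := by
  obtain ⟨n, hn, z, hfin, hper, hmul, ht⟩ := hx
  have h : AP d P Q n z := ⟨hn, hfin, hper, hmul⟩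
  obtain ⟨ρ, hρ, hball⟩ := h.trap hcont hO fun i => hO' n _ (h.iter i)
  have hopen : IsOpen ((fun z : ℂ => (z : OnePoint ℂ)) '' ball z ρ) :=
    OnePoint.isOpenEmbedding_coe.isOpenMap _ isOpen_ball
  obtain ⟨k, hk⟩ := (ht.eventually (hopen.mem_nhds ⟨z, mem_ball_self hρ, rfl⟩)).exists
  refine ⟨(sph d P Q)^[n * k] ⁻¹' ((fun z : ℂ => (z : OnePoint ℂ)) '' ball z ρ),
    (hcont.iterate (n * k)).continuousAt.preimage_mem_nhds (hopen.mem_nhds hk), n * k, ?_⟩
  intro x' hx' m hm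
  obtain ⟨w, hw, hwe⟩ := hx'
  obtain ⟨j, rfl⟩ := Nat.exists_eq_add_of_le' hm
  rw [Function.iterate_add_apply, ← hwe]
  exact hball w hw j

end AP

/-! ## Fatou's argument -/

/-- branches of the inverse along a backward orbit -/
theorem exists_br {f : ℂ → ℂ} {U K : Set ℂ} {δ ε δL ρ : ℝ} {y : ℂ}
    (hback : ∀ n, E f U K δ n ⊆ cthickening ε K) (hεL : ε ≤ δL)
    (hlift : ∀ g : ℂ → ℂ, DifferentiableOn ℂ g (ball y ρ) →
      MapsTo g (ball y ρ) (cthickening δL K) →
      (∀ z ∈ U, f z ∈ g '' ball y ρ → deriv f z ≠ 0) →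
      ∀ z₀ ∈ U, f z₀ = g y → ∃ G : ℂ → ℂ, DifferentiableOn ℂ G (ball y ρ) ∧ G y = z₀ ∧
        ∀ x ∈ ball y ρ, G x ∈ U ∧ f (G x) = g x)
    (hball : ball y ρ ⊆ cthickening δ K)
    (hcrit : ∀ z ∈ cthickening ε K, z ∈ U → deriv f z = 0 → ∀ n, f^[n] z ∉ ball y ρ)
    {Y : ℕ → ℂ} (hY0 : Y 0 = y) (hYU : ∀ n, Y n ∈ U) (hY : ∀ n, f (Y (n + 1)) = Y n) (n : ℕ) :
    ∃ g, IsBr f U n y ρ g ∧ g y = Y n := by
  induction n with
  | zero =>
    refine ⟨id, ⟨differentiableOn_id, fun x _ => ⟨fun i hi => absurd hi (by omega), rfl⟩⟩, ?_⟩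
    rw [hY0]
    rfl
  | succ n ih =>
    obtain ⟨g, ⟨hgd, hg⟩, hgy⟩ := ih
    have hgE : ∀ x ∈ ball y ρ, g x ∈ E f U K δ n := fun x hx =>
      ⟨(hg x hx).1, by rw [(hg x hx).2]; exact hball hx⟩
    obtain ⟨G, hGd, hGy, hG⟩ := hlift g hgd
      (fun x hx => cthickening_mono hεL _ (hback n (hgE x hx)))
      (by
        rintro z hzU ⟨x, hx, hxz⟩ h0
        have hz1 : f^[n + 1] z = x := by
          rw [Function.iterate_succ_apply, ← hxz]
          exact (hg x hx).2
        have hzE : z ∈ E f U K δ (n + 1) := by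
          refine ⟨fun i hi => ?_, ?_⟩
          · rcases i with _ | i
            · exact hzU
            · rw [Function.iterate_succ_apply, ← hxz]
              exact (hg x hx).1 i (by omega)
          · rw [hz1]
            exact hball hx
        refine hcrit z (hback _ hzE) hzU h0 (n + 1) ?_
        rw [hz1]
        exact hx)
      (Y (n + 1)) (hYU _) (by rw [hY, hgy])
    refine ⟨G, ⟨hGd, fun x hx => ⟨fun i hi => ?_, ?_⟩⟩, hGy⟩
    · rcases i with _ | i
      · exact (hG x hx).1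
      · rw [Function.iterate_succ_apply, (hG x hx).2]
        exact (hg x hx).1 i (by omega)
    · rw [Function.iterate_succ_apply, (hG x hx).2]
      exact (hg x hx).2

theorem t_RLATE (hB : S_RBACK) (hL : S_RLIFT) : S_RLATE := by
  intro P Q d hd hPQ hPd hQd hinf
  have hd0 : 0 < d := by omega
  have hcont : Continuous (sph d P Q) := B1_continuous hPQ hPd hQd
  have hK : IsCompact (RK d P Q) := natt_compact hd0 hPQ hPd hQd hinf
  have hKU : RK d P Q ⊆ RU Q := fun z hz => (natt_step hcont hinf hz).1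
  have hUo : IsOpen (RU Q) := isOpen_ne_fun Q.continuous continuous_const
  have hwr : wr P Q ≠ 0 := wr_ne_zero hd0 hPQ hQd
  -- the zeros of the derivative outside `K`
  have hZfin : {z : ℂ | (wr P Q).eval z = 0 ∧ z ∉ RK d P Q}.Finite := by
    refine ((wr P Q).roots.toFinset.finite_toSet).subset fun z hz => ?_
    rw [Finset.mem_coe, Multiset.mem_toFinset, mem_roots hwr]
    exact hz.1
  have hVo : IsOpen (RU Q ∩ {z : ℂ | (wr P Q).eval z = 0 ∧ z ∉ RK d P Q}ᶜ) :=
    hUo.inter hZfin.isClosed.isOpen_compl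
  obtain ⟨ε₂, hε₂, hε₂V⟩ := hK.exists_cthickening_subset_open hVo
    (fun z hz => ⟨hKU hz, fun h => h.2 hz⟩)
  obtain ⟨δL, hδL, hlift⟩ := hL P Q d hd hPQ hPd hQd hinf
  obtain ⟨ε₁, hε₁, hε₁2, hε₁L⟩ : ∃ ε₁ > (0 : ℝ), ε₁ ≤ ε₂ ∧ ε₁ ≤ δL :=
    ⟨min ε₂ δL, lt_min hε₂ hδL, min_le_left _ _, min_le_right _ _⟩
  obtain ⟨δ, hδ, hback⟩ := hB P Q d hd hPQ hPd hQd hinf ε₁ hε₁
  have hε₁V : cthickening ε₁ (RK d P Q) ⊆
      RU Q ∩ {z : ℂ | (wr P Q).eval z = 0 ∧ z ∉ RK d P Q}ᶜ :=
    (cthickening_mono hε₁2 _).trans hε₂V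
  -- Fatou's argument
  have hno : ∀ p y, AP d P Q p y → y ∉ cthickening (δ / 2) (RK d P Q) := by
    intro p y hy hyK
    have hyA : Att d P Q (y : OnePoint ℂ) := hy.att
    have hAo : IsOpen {z : ℂ | Att d P Q (z : OnePoint ℂ)} :=
      (att_open hd0 hPQ hPd hQd).preimage OnePoint.continuous_coe
    obtain ⟨ρ₁, hρ₁, hρ₁A⟩ := Metric.isOpen_iff.1 hAo y hyA
    obtain ⟨ρ, hρ, hρa, hρb⟩ : ∃ ρ > (0 : ℝ), ρ ≤ ρ₁ ∧ ρ ≤ δ / 2 :=
      ⟨min ρ₁ (δ / 2), lt_min hρ₁ (by linarith), min_le_left _ _, min_le_right _ _⟩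
    have hballK : ball y ρ ⊆ cthickening δ (RK d P Q) := by
      intro x hx
      rw [mem_cthickening_iff] at hyK ⊢
      calc infEDist x (RK d P Q) ≤ edist x y + infEDist y (RK d P Q) := by
            rw [add_comm]
            exact infEDist_le_infEDist_add_edist
        _ ≤ ENNReal.ofReal (δ / 2) + ENNReal.ofReal (δ / 2) := by
            refine add_le_add ?_ hyK
            rw [edist_dist]
            exact ENNReal.ofReal_le_ofReal ((mem_ball.1 hx).le.trans hρb)
        _ = ENNReal.ofReal δ := by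
            rw [← ENNReal.ofReal_add (by linarith) (by linarith), add_halves]
    have hballA : ∀ x ∈ ball y ρ, Att d P Q (x : OnePoint ℂ) := fun x hx =>
      hρ₁A (ball_subset_ball hρa hx)
    -- the backward orbit
    let Y : ℕ → ℂ := fun n => (rf P Q)^[p * n - n] y
    have hp : 1 ≤ p := hy.pos
    have hY0 : Y 0 = y := by simp [Y]
    have hYU : ∀ n, Y n ∈ RU Q := fun n => hy.q _
    have hYn : ∀ n, rf P Q (Y (n + 1)) = Y n := by
      intro n
      show rf P Q ((rf P Q)^[p * (n + 1) - (n + 1)] y) = (rf P Q)^[p * n - n] y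
      have hle : n ≤ p * n := Nat.le_mul_of_pos_left n hp
      have e1 : (p * (n + 1) - (n + 1)) + 1 = (p * n - n) + p := by
        rw [Nat.mul_succ]
        omega
      rw [← Function.iterate_succ_apply' (rf P Q), Nat.succ_eq_add_one, e1,
        Function.iterate_add_apply, hy.fix]
    have hcrit : ∀ z ∈ cthickening ε₁ (RK d P Q), z ∈ RU Q → deriv (rf P Q) z = 0 →
        ∀ n, (rf P Q)^[n] z ∉ ball y ρ := by
      intro z hz hzU h0 n hn
      have h1 := (C2x.rf_strict (P := P) (show Q.eval z ≠ 0 from hzU)).hasDerivAt.deriv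
      rw [h0] at h1
      have h2 : (wr P Q).eval z = 0 := by
        rcases div_eq_zero_iff.1 h1.symm with h3 | h3
        · exact h3
        · exact absurd (pow_eq_zero_iff (by norm_num) |>.1 h3) hzU
      have h3 : z ∈ RK d P Q := by
        by_contra hzK
        exact (hε₁V hz).2 ⟨h2, hzK⟩
      exact (natt_iter hcont hinf h3 n).1 (hballA _ hn)
    have hbr := exists_br (Y := Y) (f := rf P Q) (U := RU Q) (K := RK d P Q) hback hε₁L
      (fun g => hlift g y ρ hρ) hballK hcrit hY0 hYU hYn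
    -- the bound of the branches
    obtain ⟨M, hM⟩ := (hK.isBounded.cthickening (δ := ε₁)).exists_norm_le
    have hbd : ∀ k : ℕ, 1 ≤ ‖deriv ((rf P Q)^[p]) y‖ ^ k * (M / (ρ / 2)) := by
      intro k
      obtain ⟨g, ⟨hgd, hg⟩, hgy⟩ := hbr (p * k)
      have hgy' : g y = y := by
        rw [hgy]
        show (rf P Q)^[p * (p * k) - p * k] y = y
        have e1 : p * (p * k) - p * k = p * (p * k - k) := by
          rw [Nat.mul_sub]
        rw [e1]
        exact hy.fixm _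
      have h1 : HasDerivAt g (deriv g y) y :=
        (hgd.differentiableAt (isOpen_ball.mem_nhds (mem_ball_self hρ))).hasDerivAt
      have h2 : HasDerivAt ((rf P Q)^[p * k]) (deriv ((rf P Q)^[p * k]) y) (g y) := by
        rw [hgy']
        exact (C2x.iter_diff (p * k) fun i _ => hy.q i).hasDerivAt
      have h3 := h2.comp y h1
      have h4 : HasDerivAt ((rf P Q)^[p * k] ∘ g) 1 y := by
        refine (hasDerivAt_id y).congr_of_eventuallyEq ?_
        filter_upwards [isOpen_ball.mem_nhds (mem_ball_self hρ)] with x hx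
        exact (hg x hx).2
      have h5 := h3.unique h4
      rw [hy.deriv_mul] at h5
      have h6 : ‖deriv g y‖ ≤ M / (ρ / 2) := by
        apply Complex.norm_deriv_le_of_forall_mem_sphere_norm_le (by linarith)
        · apply DifferentiableOn.diffContOnCl
          refine hgd.mono (closure_ball_subset_closedBall.trans ?_)
          exact closedBall_subset_ball (by linarith)
        · intro x hx
          have hx' : x ∈ ball y ρ := by
            rw [mem_ball, mem_sphere.1 hx]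
            linarith
          refine hM _ (hback (p * k) ⟨(hg x hx').1, ?_⟩)
          rw [(hg x hx').2]
          exact hballK hx'
      calc (1 : ℝ) = ‖deriv ((rf P Q)^[p]) y ^ k * deriv g y‖ := by rw [h5, norm_one]
        _ = ‖deriv ((rf P Q)^[p]) y‖ ^ k * ‖deriv g y‖ := by rw [norm_mul, norm_pow]
        _ ≤ _ := by gcongr
    have hlim : Tendsto (fun k : ℕ => ‖deriv ((rf P Q)^[p]) y‖ ^ k * (M / (ρ / 2))) atTop
        (𝓝 (0 * (M / (ρ / 2)))) :=
      (tendsto_pow_atTop_nhds_zero_of_lt_one (norm_nonneg _) hy.mul).mul_const _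
    rw [zero_mul] at hlim
    have := ge_of_tendsto' hlim hbd
    linarith
  -- uniform attraction
  refine ⟨δ / 2, by linarith, fun ε hε => ?_⟩
  have hCc : IsCompact (cthickening (δ / 2) (RK d P Q)) := hK.cthickening
  let O : Set (OnePoint ℂ) := ((fun z : ℂ => (z : OnePoint ℂ)) '' cthickening (δ / 2) (RK d P Q))ᶜ
  have hO : IsOpen O := (hCc.image OnePoint.continuous_coe).isClosed.isOpen_compl
  have hO' : ∀ n z, AP d P Q n z → (z : OnePoint ℂ) ∈ O := by
    rintro n z hz ⟨w, hw, hwz⟩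
    have : w = z := OnePoint.coe_injective hwz
    rw [this] at hw
    exact hno n z hz hw
  let L : Set (OnePoint ℂ) := ((fun z : ℂ => (z : OnePoint ℂ)) '' thickening ε (RK d P Q))ᶜ
  have hLc : IsCompact L := by
    apply IsClosed.isCompact
    exact (OnePoint.isOpenEmbedding_coe.isOpenMap _ isOpen_thickening).isClosed_compl
  have hLA : ∀ x ∈ L, Att d P Q x := by
    intro x hx
    induction x using OnePoint.rec with
    | infty => exact hinf
    | coe z =>
      by_contra hz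
      exact hx ⟨z, self_subset_thickening hε _ hz, rfl⟩
  choose! V hV N hN using fun x (hx : x ∈ L) => late_pt hcont hO hO' (hLA x hx)
  obtain ⟨t, htL, ht⟩ := hLc.elim_nhds_subcover V hV
  refine ⟨t.sup N, fun n hn z hz => ?_⟩
  by_contra hzε
  have hzL : (z : OnePoint ℂ) ∈ L := by
    rintro ⟨w, hw, hwz⟩
    have : w = z := OnePoint.coe_injective hwz
    rw [this] at hw
    exact hzε (thickening_subset_cthickening _ _ hw)
  obtain ⟨x, hx, hzx⟩ := mem_iUnion₂.1 (ht hzL)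
  have h1 := hN x (htL x hx) _ hzx n ((Finset.le_sup hx).trans hn)
  rw [C2x.iter_coe n fun i hi => hz.1 i hi] at h1
  exact h1 ⟨_, hz.2, rfl⟩

end Pool.Agent.H539.AD211

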